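import Pool.Agent.NCQ.MainPos
import Pool.Agent.NCR.Final

set_option autoImplicit false

/-! # The graph manifold `Σ × S¹ ∪_A Σ × S¹` has a metric without conjugate points if and only if a
diagonal entry of `A` is zero

All definitions used in the statement are in `Pool/Agent/NCQ/MDefs.lean` (the closed manifold, its
smooth Riemannian metrics, geodesics, Jacobi fields). -/

namespace Pool.Agent.Results.MP_23cc9a_gt.Classification

open Pool.Agent

/-- Let `A` be in `SL(2, ℤ)` with `|trace A| > 2`, with respect to the basis (boundary curve of the
one-holed torus, fibre) of the boundary torus. The closed graph manifold `MBar A` has a smooth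
Riemannian metric without conjugate points if and only if a diagonal entry of `A` is zero. -/
theorem result (A : Matrix.SpecialLinearGroup (Fin 2) ℤ) (htr : 2 < |Matrix.trace A.1|) :
    (∃ g : NCQ.GMMetric A, g.NoConjugatePoints) ↔ (A.1 0 0 = 0 ∨ A.1 1 1 = 0) := by
  refine ⟨fun h => ?_, NCQ.exists_noConjugatePoints A⟩
  by_contra h'
  rw [not_or] at h'
  rw [Matrix.trace_fin_two] at htr
  exact NCR.not_exists_noConjugatePoints A htr h'.1 h'.2 h

end Pool.Agent.Results.MP_23cc9a_gt.Classification
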